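import Mathlib
import Pool.Agent.X129.ExitCont
import Pool.Agent.X129.ExitPsi

/-!
Among boxes centred at the origin, the cube maximises the normalised exit time moments
`λ₁(R)^p E₀[τ_R^p]` of Brownian motion, with equality only for cubes.
-/

set_option autoImplicit false
set_option linter.unusedVariables false
set_option linter.unusedSectionVars false

namespace Pool.Agent.Results.MP_1e851b_pr.CubeMaximises

open MeasureTheory ProbabilityTheory Set Filter Topology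
open Pool.Agent.X129.ExitCont Pool.Agent.X129.ExitPsi
open scoped NNReal ENNReal

noncomputable section

variable {Ω : Type*} {mΩ : MeasurableSpace Ω} {d : ℕ}

/-- Standard Brownian motion in `ℝ^d` started at the origin: the coordinates are independent
one-dimensional Brownian motions. -/
structure IsBrownian (B : Fin d → ℝ≥0 → Ω → ℝ) (P : Measure Ω) : Prop where
  coord : ∀ k, IsBrownianReal (B k) P
  indep : iIndepFun (fun k ω t => B k t ω) P

/-- Exit time of the open box `{x : |x_k| < a_k for all k}`: the infimum of all times `t` at which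
some coordinate satisfies `|B_k(t)| ≥ a_k` (`∞` if there is none). -/
def exitTime (B : Fin d → ℝ≥0 → Ω → ℝ) (a : Fin d → ℝ) (ω : Ω) : ℝ≥0∞ :=
  ⨅ (t : ℝ≥0) (_ : ∃ k, a k ≤ |B k t ω|), (t : ℝ≥0∞)

/-- First Dirichlet eigenvalue of `-Δ` on the box. -/
def lambda1 (a : Fin d → ℝ) : ℝ := Real.pi ^ 2 / 4 * ∑ k, (a k ^ 2)⁻¹

/-- `λ₁(R_a)^p E₀[τ^p]` -/
def normalizedMoment (P : Measure Ω) (B : Fin d → ℝ≥0 → Ω → ℝ) (p : ℝ) (a : Fin d → ℝ) : ℝ≥0∞ :=
  ENNReal.ofReal (lambda1 a ^ p) * ∫⁻ ω, exitTime B a ω ^ p ∂P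

/-! ### closed exit time -/

/-- countable set of times -/
def D (n : ℕ × ℕ) : ℝ≥0 := (n.1 : ℝ≥0) / (n.2 + 1)

lemma D_between {x y : ℝ≥0} (h : x < y) : ∃ n, x < D n ∧ D n < y := by
  obtain ⟨r, hr0, h1, h2⟩ := (NNReal.lt_iff_exists_rat_btwn x y).mp h
  refine ⟨(r.num.toNat, r.den - 1), ?_⟩
  have hD : D (r.num.toNat, r.den - 1) = Real.toNNReal r := by
    unfold D
    simp only
    have h3 : ((r.den - 1 : ℕ) : ℝ≥0) + 1 = r.den := by
      have := r.den_pos
      have h4 : r.den - 1 + 1 = r.den := by omega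
      exact_mod_cast h4
    rw [h3]
    rw [← NNReal.coe_inj, Real.coe_toNNReal _ (by exact_mod_cast hr0), NNReal.coe_div]
    have h5 : ((r.num.toNat : ℝ≥0) : ℝ) = (r.num : ℝ) := by
      have h6 : ((r.num.toNat : ℤ)) = r.num := Int.toNat_of_nonneg (Rat.num_nonneg.mpr hr0)
      rw [NNReal.coe_natCast]
      exact_mod_cast h6
    rw [h5]
    rw [NNReal.coe_natCast]
    exact_mod_cast (Rat.num_div_den r)
  rw [hD]
  exact ⟨h1, h2⟩

def σ (B : Fin d → ℝ≥0 → Ω → ℝ) (a : Fin d → ℝ) (ω : Ω) : ℝ≥0∞ :=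
  ⨅ n, ⨅ k, ⨅ (_ : a k < |B k (D n) ω|), (D n : ℝ≥0∞)

lemma exit_le_σ (B : Fin d → ℝ≥0 → Ω → ℝ) (a : Fin d → ℝ) (ω : Ω) : exitTime B a ω ≤ σ B a ω := by
  refine le_iInf fun n => le_iInf fun k => le_iInf fun h => ?_
  exact iInf_le_of_le (D n) (iInf_le_of_le ⟨k, h.le⟩ le_rfl)

lemma σ_le_exit {B : Fin d → ℝ≥0 → Ω → ℝ} {a a' : Fin d → ℝ} (haa : ∀ k, a' k < a k) {ω : Ω}
    (hc : ∀ k, Continuous (B k · ω)) : σ B a' ω ≤ exitTime B a ω := by
  refine le_iInf fun t => le_iInf fun h => ?_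
  obtain ⟨k, hk⟩ := h
  apply ENNReal.le_of_forall_pos_le_add
  intro ε hε _
  have h1 : a' k < |B k t ω| := (haa k).trans_le hk
  have hopen : IsOpen {s : ℝ≥0 | a' k < |B k s ω|} := isOpen_lt continuous_const (hc k).abs
  obtain ⟨r, hr0, hr⟩ := Metric.isOpen_iff.mp hopen t h1
  obtain ⟨η, hη0, hη1, hη2⟩ : ∃ η : ℝ≥0, 0 < η ∧ η ≤ ε ∧ (η : ℝ) ≤ r := by
    refine ⟨min ε r.toNNReal, lt_min hε (Real.toNNReal_pos.mpr hr0), min_le_left _ _, ?_⟩
    calc ((min ε r.toNNReal : ℝ≥0) : ℝ) ≤ (r.toNNReal : ℝ) := by exact_mod_cast min_le_right _ _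
      _ = r := Real.coe_toNNReal _ hr0.le
  obtain ⟨n, hn1, hn2⟩ := D_between (x := t) (y := t + η) (by simpa using hη0)
  have h2 : a' k < |B k (D n) ω| := by
    apply hr
    rw [Metric.mem_ball, NNReal.dist_eq, abs_lt]
    have h3 : (t : ℝ) < D n := by exact_mod_cast hn1
    have h4 : (D n : ℝ) < t + η := by exact_mod_cast hn2
    constructor <;> linarith
  calc σ B a' ω ≤ (D n : ℝ≥0∞) := iInf_le_of_le n (iInf_le_of_le k (iInf_le_of_le h2 le_rfl))
    _ ≤ ((t + η : ℝ≥0) : ℝ≥0∞) := by exact_mod_cast hn2.le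
    _ ≤ (t : ℝ≥0∞) + ε := by
      rw [ENNReal.coe_add]
      gcongr

variable {P : Measure Ω} {B : Fin d → ℝ≥0 → Ω → ℝ}

lemma σ_meas (hB : IsBrownian B P) (a : Fin d → ℝ) : AEMeasurable (σ B a) P := by
  classical
  unfold σ
  refine AEMeasurable.iInf fun n => AEMeasurable.iInf fun k => ?_
  have h1 : Measurable (fun x : ℝ => ⨅ (_ : a k < |x|), (D n : ℝ≥0∞)) := by
    have e : (fun x : ℝ => ⨅ (_ : a k < |x|), (D n : ℝ≥0∞)) =
        {x : ℝ | a k < |x|}.piecewise (fun _ => (D n : ℝ≥0∞)) (fun _ => ⊤) := by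
      funext x
      by_cases hx : a k < |x|
      · rw [iInf_pos hx, Set.piecewise_eq_of_mem _ _ _ (show x ∈ {x : ℝ | a k < |x|} from hx)]
      · rw [iInf_neg hx, Set.piecewise_eq_of_notMem _ _ _ (show x ∉ {x : ℝ | a k < |x|} from hx)]
    rw [e]
    exact Measurable.piecewise (measurableSet_lt measurable_const (by fun_prop)) measurable_const
      measurable_const
  exact h1.comp_aemeasurable ((hB.coord k).toIsPreBrownianReal.aemeasurable (D n))

lemma σ_ge {a : Fin d → ℝ} {ω : Ω} {t : ℝ≥0∞} :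
    t ≤ σ B a ω ↔ ∀ k, ∀ n, (D n : ℝ≥0∞) < t → |B k (D n) ω| ≤ a k := by
  unfold σ
  simp only [le_iInf_iff]
  constructor
  · intro h k n hn
    by_contra hc
    push Not at hc
    exact absurd hn (not_lt.mpr (h n k hc))
  · intro h n k hk
    by_contra hc
    push Not at hc
    exact absurd (h k n hc) (not_le.mpr hk)

/-- survival probability of the closed box -/
lemma σ_prob (hB : IsBrownian B P) (k₀ : Fin d) {a : Fin d → ℝ} (ha : ∀ k, 0 < a k) {t : ℝ}
    (ht : 0 < t) : P {ω | ENNReal.ofReal t ≤ σ B a ω} =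
      ENNReal.ofReal (∏ k, q P (B k₀) ((a k ^ 2)⁻¹ * t)) := by
  have hPr : IsProbabilityMeasure P :=
    (hB.coord k₀).toIsPreBrownianReal.isGaussianProcess.isProbabilityMeasure
  obtain ⟨S, hS⟩ : ∃ S : Fin d → Set (ℝ≥0 → ℝ),
      S = fun k => {x | ∀ n, (D n : ℝ≥0∞) < ENNReal.ofReal t → |x (D n)| ≤ a k} := ⟨_, rfl⟩
  have hSm : ∀ k, MeasurableSet (S k) := by
    intro k
    have e : S k = ⋂ (n) (_ : (D n : ℝ≥0∞) < ENNReal.ofReal t), {x : ℝ≥0 → ℝ | |x (D n)| ≤ a k} := by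
      rw [hS]; ext x; simp
    rw [e]
    refine MeasurableSet.iInter fun n => MeasurableSet.iInter fun _ => ?_
    exact measurableSet_le (by fun_prop) measurable_const
  have h1 : {ω | ENNReal.ofReal t ≤ σ B a ω} = ⋂ k ∈ (Finset.univ : Finset (Fin d)),
      (fun ω s => B k s ω) ⁻¹' (S k) := by
    ext ω
    rw [hS]
    simp [σ_ge]
  rw [h1, hB.indep.measure_inter_preimage_eq_mul Finset.univ (fun k _ => hSm k)]
  rw [ENNReal.ofReal_prod_of_nonneg (fun k _ => q_nonneg (hB.coord k₀) _)]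
  apply Finset.prod_congr rfl
  intro k _
  have h2 : (fun ω s => B k s ω) ⁻¹' (S k) =ᵐ[P] C (B k) (a k) t.toNNReal := by
    filter_upwards [(hB.coord k).cont] with ω hc
    apply propext
    constructor
    · intro h s hs
      have h' : ∀ n, (D n : ℝ≥0∞) < ENNReal.ofReal t → |B k (D n) ω| ≤ a k := by
        have : (fun s => B k s ω) ∈ S k := h
        rw [hS] at this
        exact this
      -- closed condition, dense times
      by_contra hcon
      push Not at hcon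
      have hopen : IsOpen {s : ℝ≥0 | a k < |B k s ω|} := isOpen_lt continuous_const hc.abs
      -- there is such a time strictly below `t`
      obtain ⟨s', hs'1, hs'2⟩ : ∃ s' : ℝ≥0, s' < t.toNNReal ∧ a k < |B k s' ω| := by
        rcases hs.lt_or_eq with h3 | h3
        · exact ⟨s, h3, hcon⟩
        · obtain ⟨r, hr0, hr⟩ := Metric.isOpen_iff.mp hopen s hcon
          have htp : 0 < t.toNNReal := Real.toNNReal_pos.mpr ht
          refine ⟨s - min (r / 2).toNNReal s, ?_, ?_⟩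
          · rw [← h3]
            apply tsub_lt_self (by rw [h3]; exact htp)
            exact lt_min (Real.toNNReal_pos.mpr (by linarith)) (by rw [h3]; exact htp)
          · apply hr
            rw [Metric.mem_ball, NNReal.dist_eq, NNReal.coe_sub (min_le_right _ _), abs_lt]
            have h4 : ((min (r / 2).toNNReal s : ℝ≥0) : ℝ) ≤ r / 2 := by
              calc ((min (r / 2).toNNReal s : ℝ≥0) : ℝ) ≤ ((r / 2).toNNReal : ℝ) := by
                    exact_mod_cast min_le_left _ _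
                _ = r / 2 := Real.coe_toNNReal _ (by linarith)
            have h5 : 0 ≤ ((min (r / 2).toNNReal s : ℝ≥0) : ℝ) := NNReal.coe_nonneg _
            constructor <;> linarith
      obtain ⟨r, hr0, hr⟩ := Metric.isOpen_iff.mp hopen s' hs'2
      have h6 : s' < min t.toNNReal (s' + r.toNNReal) := by
        apply lt_min hs'1
        have := Real.toNNReal_pos.mpr hr0
        simpa using this
      obtain ⟨n, hn1, hn2⟩ := D_between h6
      have h7 : D n < t.toNNReal := hn2.trans_le (min_le_left _ _)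
      have h8 : D n < s' + r.toNNReal := hn2.trans_le (min_le_right _ _)
      have h9 : a k < |B k (D n) ω| := by
        apply hr
        rw [Metric.mem_ball, NNReal.dist_eq, abs_lt]
        have h3 : (s' : ℝ) < D n := by exact_mod_cast hn1
        have h4 : (D n : ℝ) < s' + r := by
          have : (D n : ℝ) < ((s' + r.toNNReal : ℝ≥0) : ℝ) := by exact_mod_cast h8
          rwa [NNReal.coe_add, Real.coe_toNNReal _ hr0.le] at this
        constructor <;> linarith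
      have := h' n (by
        show (D n : ℝ≥0∞) < (t.toNNReal : ℝ≥0∞)
        exact_mod_cast h7)
      linarith
    · intro h
      show (fun s => B k s ω) ∈ S k
      rw [hS]
      intro n hn
      apply h
      have : (D n : ℝ≥0∞) < (t.toNNReal : ℝ≥0∞) := hn
      exact_mod_cast this.le
  rw [measure_congr h2, scale (hB.coord k) (ha k) t ht.le]
  congr 1
  unfold q
  rw [measureReal_def, measureReal_def, uniq (hB.coord k) (hB.coord k₀), div_eq_inv_mul]

lemma surv (hB : IsBrownian B P) (k₀ : Fin d) : Surv (q P (B k₀)) where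
  nonneg := q_nonneg (hB.coord k₀)
  le_one := q_le_one (hB.coord k₀)
  anti := q_anti (hB.coord k₀)
  zero := by
    have hPr : IsProbabilityMeasure P :=
      (hB.coord k₀).toIsPreBrownianReal.isGaussianProcess.isProbabilityMeasure
    unfold q
    rw [Real.toNNReal_zero]
    have h1 : C (B k₀) 1 0 =ᵐ[P] univ := by
      filter_upwards [(hB.coord k₀).toIsPreBrownianReal.eval_zero_ae_eq_zero] with ω h0
      apply propext
      constructor
      · intro _; trivial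
      · intro _ s hs
        have : s = 0 := le_antisymm hs zero_le
        rw [this, h0, abs_zero]
        exact zero_le_one
    rw [measureReal_congr h1]
    simp
  lt_one := fun t ht => q_lt_one (hB.coord k₀) ht
  small := fun t ht => q_small (hB.coord k₀) ht
  jensen := fun n w u h1 h2 h3 h4 => jensen (hB.coord k₀) w h1 h2 u h3 h4

lemma σ_finite (hB : IsBrownian B P) (k₀ : Fin d) {a : Fin d → ℝ} (ha : ∀ k, 0 < a k) :
    ∀ᵐ ω ∂P, σ B a ω ≠ ⊤ := by
  have hPr : IsProbabilityMeasure P :=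
    (hB.coord k₀).toIsPreBrownianReal.isGaussianProcess.isProbabilityMeasure
  rw [ae_iff]
  simp only [not_not]
  have hs := surv hB k₀
  obtain ⟨ρ, h0, h1, hd⟩ := decay hs
  have hκ : 0 < (a k₀ ^ 2)⁻¹ := by have := ha k₀; positivity
  have hlim : Tendsto (fun n : ℕ => ENNReal.ofReal (ρ⁻¹ * (ρ ^ ((a k₀ ^ 2)⁻¹)) ^ (n : ℝ))) atTop (𝓝 0) := by
    have h3 : Tendsto (fun n : ℕ => ρ⁻¹ * (ρ ^ ((a k₀ ^ 2)⁻¹)) ^ n) atTop (𝓝 (ρ⁻¹ * 0)) := by
      apply Tendsto.const_mul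
      exact tendsto_pow_atTop_nhds_zero_of_lt_one (Real.rpow_nonneg h0.le _)
        (Real.rpow_lt_one h0.le h1 hκ)
    rw [mul_zero] at h3
    have h4 := ENNReal.tendsto_ofReal h3
    rw [ENNReal.ofReal_zero] at h4
    refine h4.congr fun n => ?_
    rw [Real.rpow_natCast]
  refine le_antisymm (ge_of_tendsto' (hlim.comp (tendsto_add_atTop_nat 1)) fun n => ?_) zero_le
  have hn : (0:ℝ) < ((n + 1 : ℕ) : ℝ) := by positivity
  calc P {ω | σ B a ω = ⊤} ≤ P {ω | ENNReal.ofReal ((n + 1 : ℕ) : ℝ) ≤ σ B a ω} := by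
        apply measure_mono
        intro ω hω
        rw [mem_ofPred_eq] at hω ⊢
        rw [hω]
        exact le_top
    _ = _ := σ_prob hB k₀ ha hn
    _ ≤ _ := by
        apply ENNReal.ofReal_le_ofReal
        rw [← Finset.mul_prod_erase Finset.univ _ (Finset.mem_univ k₀)]
        have h5 : ∏ k ∈ Finset.univ.erase k₀, q P (B k₀) ((a k ^ 2)⁻¹ * ((n + 1 : ℕ) : ℝ)) ≤ 1 :=
          Finset.prod_le_one (fun k _ => hs.nonneg _) (fun k _ => hs.le_one _)
        have h6 := hd ((a k₀ ^ 2)⁻¹ * ((n + 1 : ℕ) : ℝ)) (by positivity)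
        have h7 : ρ ^ ((a k₀ ^ 2)⁻¹ * ((n + 1 : ℕ) : ℝ) - 1) =
            ρ⁻¹ * (ρ ^ ((a k₀ ^ 2)⁻¹)) ^ (((n + 1 : ℕ) : ℕ) : ℝ) := by
          rw [Real.rpow_sub h0, Real.rpow_one, div_eq_inv_mul, Real.rpow_mul h0.le]
        rw [h7] at h6
        have h8 := hs.nonneg ((a k₀ ^ 2)⁻¹ * ((n + 1 : ℕ) : ℝ))
        nlinarith

lemma σ_moment (hB : IsBrownian B P) (k₀ : Fin d) {a : Fin d → ℝ} (ha : ∀ k, 0 < a k) {p : ℝ}
    (hp : 0 < p) : ∫⁻ ω, σ B a ω ^ p ∂P =
      ENNReal.ofReal (p * Ψ (q P (B k₀)) p (fun k => (a k ^ 2)⁻¹)) := by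
  have hs := surv hB k₀
  have hfin := σ_finite hB k₀ ha
  have h1 : ∫⁻ ω, σ B a ω ^ p ∂P = ∫⁻ ω, ENNReal.ofReal ((σ B a ω).toReal ^ p) ∂P := by
    apply lintegral_congr_ae
    filter_upwards [hfin] with ω hω
    rw [← ENNReal.ofReal_rpow_of_nonneg ENNReal.toReal_nonneg hp.le, ENNReal.ofReal_toReal hω]
  rw [h1, lintegral_rpow_eq_lintegral_meas_le_mul P (Eventually.of_forall fun ω => ENNReal.toReal_nonneg)
    (σ_meas hB a).ennreal_toReal hp, ENNReal.ofReal_mul hp.le]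
  congr 1
  unfold Ψ
  have hc : ∀ k, 0 < (a k ^ 2)⁻¹ := fun k => by have := ha k; positivity
  rw [ofReal_integral_eq_lintegral_ofReal (Ψ_int hs k₀ hc hp)]
  · apply setLIntegral_congr_fun measurableSet_Ioi
    intro t ht
    have ht0 : (0:ℝ) < t := ht
    show P {ω | t ≤ (σ B a ω).toReal} * ENNReal.ofReal (t ^ (p - 1)) =
      ENNReal.ofReal ((∏ k, q P (B k₀) ((a k ^ 2)⁻¹ * t)) * t ^ (p - 1))
    rw [ENNReal.ofReal_mul (Finset.prod_nonneg fun k _ => hs.nonneg _), ← σ_prob hB k₀ ha ht0]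
    congr 1
    apply measure_congr
    filter_upwards [hfin] with ω hω
    apply propext
    show t ≤ (σ B a ω).toReal ↔ ENNReal.ofReal t ≤ σ B a ω
    rw [ENNReal.ofReal_le_iff_le_toReal hω]
  · rw [Filter.EventuallyLE, ae_restrict_iff' measurableSet_Ioi]
    refine Eventually.of_forall fun t ht => ?_
    exact mul_nonneg (Finset.prod_nonneg fun k _ => hs.nonneg _) (Real.rpow_nonneg (le_of_lt ht) _)

lemma exit_moment (hB : IsBrownian B P) (k₀ : Fin d) {a : Fin d → ℝ} (ha : ∀ k, 0 < a k) {p : ℝ}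
    (hp : 0 < p) : ∫⁻ ω, exitTime B a ω ^ p ∂P =
      ENNReal.ofReal (p * Ψ (q P (B k₀)) p (fun k => (a k ^ 2)⁻¹)) := by
  apply le_antisymm
  · rw [← σ_moment hB k₀ ha hp]
    exact lintegral_mono fun ω => ENNReal.rpow_le_rpow (exit_le_σ B a ω) hp.le
  · have hcont : ∀ᵐ ω ∂P, ∀ k, Continuous (B k · ω) := ae_all_iff.mpr fun k => (hB.coord k).cont
    have key : ∀ r : ℝ, 0 < r → r < 1 → ENNReal.ofReal ((r ^ 2) ^ p *
        (p * Ψ (q P (B k₀)) p (fun k => (a k ^ 2)⁻¹))) ≤ ∫⁻ ω, exitTime B a ω ^ p ∂P := by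
      intro r hr0 hr1
      have h1 := σ_moment hB k₀ (a := fun k => r * a k) (fun k => mul_pos hr0 (ha k)) hp
      have h2 : (fun k => ((r * a k) ^ 2)⁻¹) = fun k => (r ^ 2)⁻¹ * (a k ^ 2)⁻¹ := by
        funext k; rw [mul_pow, mul_inv]
      rw [h2, Ψ_scale _ p (inv_pos.mpr (by positivity)), Real.inv_rpow (by positivity),
        Real.rpow_neg (by positivity), inv_inv] at h1
      have h3 : p * ((r ^ 2) ^ p * Ψ (q P (B k₀)) p (fun k => (a k ^ 2)⁻¹)) =
          (r ^ 2) ^ p * (p * Ψ (q P (B k₀)) p (fun k => (a k ^ 2)⁻¹)) := by ring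
      rw [h3] at h1
      rw [← h1]
      apply lintegral_mono_ae
      filter_upwards [hcont] with ω hω
      apply ENNReal.rpow_le_rpow _ hp.le
      apply σ_le_exit _ hω
      intro k
      have := ha k
      nlinarith
    have hlim : Tendsto (fun r : ℝ => ENNReal.ofReal ((r ^ 2) ^ p *
        (p * Ψ (q P (B k₀)) p (fun k => (a k ^ 2)⁻¹)))) (𝓝[<] 1)
        (𝓝 (ENNReal.ofReal (p * Ψ (q P (B k₀)) p (fun k => (a k ^ 2)⁻¹)))) := by
      apply ENNReal.tendsto_ofReal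
      have h1 : ContinuousAt (fun r : ℝ => (r ^ 2) ^ p *
        (p * Ψ (q P (B k₀)) p (fun k => (a k ^ 2)⁻¹))) 1 := by
        apply ContinuousAt.mul _ continuousAt_const
        exact (continuous_pow 2).continuousAt.rpow_const (Or.inl (by norm_num))
      have h2 := h1.tendsto.mono_left (nhdsWithin_le_nhds (s := Iio 1))
      simpa using h2
    refine le_of_tendsto hlim ?_
    have : Ioo (0:ℝ) 1 ∈ 𝓝[<] (1:ℝ) := Ioo_mem_nhdsLT one_pos
    filter_upwards [this] with r hr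
    exact key r hr.1 hr.2

lemma norm_moment (hB : IsBrownian B P) (k₀ : Fin d) {a : Fin d → ℝ} (ha : ∀ k, 0 < a k) {p : ℝ}
    (hp : 0 < p) : normalizedMoment P B p a = ENNReal.ofReal ((Real.pi ^ 2 / 4 * d) ^ p *
      (p * Ψ (q P (B k₀)) p (fun k => d * (a k ^ 2)⁻¹ / ∑ j, (a j ^ 2)⁻¹))) := by
  have hd : 0 < d := k₀.pos
  have hd0 : (0:ℝ) < d := by exact_mod_cast hd
  have hc : ∀ k, 0 < (a k ^ 2)⁻¹ := fun k => by have := ha k; positivity
  have hS : 0 < ∑ j, (a j ^ 2)⁻¹ := Finset.sum_pos (fun k _ => hc k) ⟨k₀, Finset.mem_univ _⟩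
  unfold normalizedMoment lambda1
  rw [exit_moment hB k₀ ha hp, ← ENNReal.ofReal_mul (Real.rpow_nonneg (by positivity) _)]
  congr 1
  obtain ⟨S, hSd⟩ : ∃ S, S = ∑ j, (a j ^ 2)⁻¹ := ⟨_, rfl⟩
  rw [← hSd] at hS ⊢
  have h1 : (fun k => d * (a k ^ 2)⁻¹ / S) = fun k => (d / S) * (a k ^ 2)⁻¹ := by
    funext k; ring
  rw [h1, Ψ_scale _ p (by positivity), Real.mul_rpow (by positivity) hS.le,
    Real.mul_rpow (by positivity) hd0.le, Real.rpow_neg (by positivity), Real.div_rpow hd0.le hS.le]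
  have h2 : (d:ℝ) ^ p ≠ 0 := (Real.rpow_pos_of_pos hd0 _).ne'
  have h3 : S ^ p ≠ 0 := (Real.rpow_pos_of_pos hS _).ne'
  field_simp

/-- **Among all boxes centred at the origin the cube maximises `λ₁(R)^p E₀[τ_R^p]`**, for every
dimension and every `p > 0`; the maximum is finite and it is attained exactly at cubes. -/
theorem result (d : ℕ) (hd : 0 < d) (Ω : Type*) (mΩ : MeasurableSpace Ω) (P : Measure Ω)
    (B : Fin d → ℝ≥0 → Ω → ℝ) (hB : IsBrownian B P) (p : ℝ) (hp : 0 < p) :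
    normalizedMoment P B p (fun _ => 1) < ⊤ ∧
    ∀ a : Fin d → ℝ, (∀ k, 0 < a k) →
      normalizedMoment P B p a ≤ normalizedMoment P B p (fun _ => 1) ∧
      (normalizedMoment P B p a = normalizedMoment P B p (fun _ => 1) ↔ ∀ i j, a i = a j) := by
  obtain ⟨k₀⟩ : Nonempty (Fin d) := ⟨⟨0, hd⟩⟩
  have hd0 : (0:ℝ) < d := by exact_mod_cast hd
  have hs := surv hB k₀
  have h1 := norm_moment hB k₀ (a := fun _ => (1:ℝ)) (fun _ => one_pos) hp
  have e1 : (fun _ : Fin d => (d:ℝ) * ((1:ℝ) ^ 2)⁻¹ / ∑ _j : Fin d, ((1:ℝ) ^ 2)⁻¹) =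
      fun _ => (1:ℝ) := by
    funext k
    have h5 : (∑ _j : Fin d, ((1:ℝ) ^ 2)⁻¹) = d := by simp
    rw [h5, one_pow, inv_one, mul_one, div_self hd0.ne']
  rw [e1] at h1
  refine ⟨by rw [h1]; exact ENNReal.ofReal_lt_top, fun a ha => ?_⟩
  have hc : ∀ k, 0 < (a k ^ 2)⁻¹ := fun k => by have := ha k; positivity
  have hS : 0 < ∑ j, (a j ^ 2)⁻¹ := Finset.sum_pos (fun k _ => hc k) ⟨k₀, Finset.mem_univ _⟩
  have hv : ∀ k, 0 < d * (a k ^ 2)⁻¹ / ∑ j, (a j ^ 2)⁻¹ := fun k => by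
    have := hc k
    positivity
  have hsum : ∑ k, (d * (a k ^ 2)⁻¹ / ∑ j, (a j ^ 2)⁻¹) = d := by
    rw [← Finset.sum_div, ← Finset.mul_sum, mul_div_assoc, div_self hS.ne', mul_one]
  have h2 := norm_moment hB k₀ ha hp
  have hC : 0 < (Real.pi ^ 2 / 4 * d) ^ p := Real.rpow_pos_of_pos (by positivity) _
  have hle := Ψ_le hs hd hv hsum hp
  have hΨ0 : 0 ≤ Ψ (q P (B k₀)) p (fun k => d * (a k ^ 2)⁻¹ / ∑ j, (a j ^ 2)⁻¹) := by
    unfold Ψ
    apply setIntegral_nonneg measurableSet_Ioi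
    intro t ht
    exact mul_nonneg (Finset.prod_nonneg fun k _ => hs.nonneg _) (Real.rpow_nonneg (le_of_lt ht) _)
  rw [h1, h2]
  refine ⟨?_, ?_, ?_⟩
  · apply ENNReal.ofReal_le_ofReal
    apply mul_le_mul_of_nonneg_left _ hC.le
    exact mul_le_mul_of_nonneg_left hle hp.le
  · intro heq
    by_contra hne
    push Not at hne
    obtain ⟨i, j, hij⟩ := hne
    have hsq : a i ^ 2 ≠ a j ^ 2 := by
      intro h
      exact hij ((pow_left_inj₀ (ha i).le (ha j).le two_ne_zero).mp h)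
    have hlt : Ψ (q P (B k₀)) p (fun k => d * (a k ^ 2)⁻¹ / ∑ j, (a j ^ 2)⁻¹) <
        Ψ (q P (B k₀)) p (fun _ : Fin d => (1:ℝ)) := by
      rcases lt_or_gt_of_ne hsq with h | h
      · have h3 : d * (a j ^ 2)⁻¹ / ∑ j, (a j ^ 2)⁻¹ < d * (a i ^ 2)⁻¹ / ∑ j, (a j ^ 2)⁻¹ := by
          apply div_lt_div_of_pos_right _ hS
          apply mul_lt_mul_of_pos_left _ hd0
          exact inv_strictAnti₀ (by have := ha i; positivity) h
        exact Ψ_lt hs hd hv hsum hp h3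
      · have h3 : d * (a i ^ 2)⁻¹ / ∑ j, (a j ^ 2)⁻¹ < d * (a j ^ 2)⁻¹ / ∑ j, (a j ^ 2)⁻¹ := by
          apply div_lt_div_of_pos_right _ hS
          apply mul_lt_mul_of_pos_left _ hd0
          exact inv_strictAnti₀ (by have := ha j; positivity) h
        exact Ψ_lt hs hd hv hsum hp h3
    have h4 : (Real.pi ^ 2 / 4 * d) ^ p *
        (p * Ψ (q P (B k₀)) p (fun k => d * (a k ^ 2)⁻¹ / ∑ j, (a j ^ 2)⁻¹)) <
        (Real.pi ^ 2 / 4 * d) ^ p * (p * Ψ (q P (B k₀)) p (fun _ : Fin d => (1:ℝ))) := by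
      apply mul_lt_mul_of_pos_left _ hC
      exact mul_lt_mul_of_pos_left hlt hp
    have h5 : 0 < (Real.pi ^ 2 / 4 * d) ^ p * (p * Ψ (q P (B k₀)) p (fun _ : Fin d => (1:ℝ))) :=
      lt_of_le_of_lt (mul_nonneg hC.le (mul_nonneg hp.le hΨ0)) h4
    exact absurd heq ((ENNReal.ofReal_lt_ofReal_iff h5).mpr h4).ne
  · intro hall
    have e2 : (fun k => d * (a k ^ 2)⁻¹ / ∑ j, (a j ^ 2)⁻¹) = fun _ => (1:ℝ) := by
      funext k
      have h3 : ∀ j, (a j ^ 2)⁻¹ = (a k ^ 2)⁻¹ := fun j => by rw [hall j k]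
      have h4 : ∑ j, (a j ^ 2)⁻¹ = d * (a k ^ 2)⁻¹ := by
        rw [Finset.sum_congr rfl fun j _ => h3 j]
        simp
      rw [h4]
      have := hc k
      exact div_self (by positivity)
    rw [e2]

end

end Pool.Agent.Results.MP_1e851b_pr.CubeMaximises
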